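import Pool.Agent.Helper31.CY.St2
import Pool.Agent.Helper31.CY.St4

set_option autoImplicit false

open Set Topology Filter

namespace Pool.Agent.Helper38.CY

open Pool.Agent.Helper31.CY

private lemma coord_cont (i : Fin 3) : Continuous (fun x : E3 => x i) := by fun_prop

private lemma rad_cont : Continuous rad := by
  unfold rad
  have h0 := coord_cont 0
  have h1 := coord_cont 1
  fun_prop

private lemma coord_dist (x p : E3) (i : Fin 3) : |x i - p i| ≤ dist x p := by
  rw [dist_eq_norm]
  have h := PiLp.norm_apply_le (x - p) i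
  rw [Real.norm_eq_abs] at h
  exact h

private lemma norm_le_rad (x : E3) : ‖x‖ ≤ rad x + |x 2| := by
  rw [EuclideanSpace.norm_eq, Fin.sum_univ_three]
  apply Real.sqrt_le_iff.mpr
  have hr : rad x ^ 2 = x 0 ^ 2 + x 1 ^ 2 := Real.sq_sqrt (by positivity)
  have hr0 : 0 ≤ rad x := Real.sqrt_nonneg _
  have ha : 0 ≤ |x 2| := abs_nonneg _
  refine ⟨by positivity, ?_⟩
  rw [Real.norm_eq_abs, Real.norm_eq_abs, Real.norm_eq_abs, sq_abs, sq_abs, sq_abs]
  have h2 : |x 2| ^ 2 = x 2 ^ 2 := sq_abs _
  nlinarith [mul_nonneg hr0 ha]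

private lemma rad_rot (θ : ℝ) (x : E3) : rad (rot θ x) = rad x := by
  unfold rad rot pt
  congr 1
  simp
  nlinarith [Real.sin_sq_add_cos_sq θ]

private lemma rot_two (θ : ℝ) (x : E3) : (rot θ x) 2 = x 2 := by
  simp [rot, pt]

private lemma pos_of_rad {p : E3} (h : 0 < rad p) : 0 < p 0 ^ 2 + p 1 ^ 2 := by
  by_contra hc
  have : p 0 ^ 2 + p 1 ^ 2 = 0 := le_antisymm (not_lt.1 hc) (by positivity)
  rw [rad, this, Real.sqrt_zero] at h
  exact lt_irrefl _ h

private lemma mem_circ {p : E3} {r z : ℝ} (hr : 0 < r) (hp : rad p = r) (h2 : p 2 = z) :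
    p ∈ circ r z := by
  refine ⟨?_, h2⟩
  rw [← hp]
  exact (Real.sq_sqrt (by positivity)).symm

private lemma rad_circ {p : E3} {r z : ℝ} (hr : 0 < r) (hp : p ∈ circ r z) : rad p = r := by
  unfold rad
  rw [hp.1]
  exact Real.sqrt_sq hr.le

theorem hCYM (hCTF : StCTF) (hXR1 : StXR1) (hXR2 : StXR2) (hXB1 : StXB1) (hXY : StXY) :
    StCYM := by
  intro S r0 r1 h hr0 hr1 hh hS
  obtain ⟨ρ, t, hρ, ht, hth, hc0, hc1, hmem⟩ := hS
  obtain ⟨f1, -, f3, f4, -, -, -, f8, f9, -⟩ := hCTF ρ (1 / Real.sqrt 3) hρ
  have hm0 : 0 < 1 / Real.sqrt 3 := by positivity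
  have hcge : ∀ τ, 0 ≤ τ → ρ ≤ cat ρ (1 / Real.sqrt 3) τ := by
    intro τ hτ
    rcases eq_or_lt_of_le hτ with h0 | h0
    · rw [← h0, f1]
    · have := f9 τ h0.ne'
      have h2 := mul_pos hm0 h0
      linarith
  have hccont : Continuous (cat ρ (1 / Real.sqrt 3)) :=
    continuous_iff_continuousAt.2 fun τ => (f4 τ).continuousAt
  have hsym : ∀ z : ℝ, cat ρ (1 / Real.sqrt 3) (t - z) = cat ρ (-(1 / Real.sqrt 3)) (z - t) := by
    intro z
    rw [← f8 (t - z), neg_sub]
  -- Y points
  have hYpt : ∀ p : E3, p 2 = t → rad p = ρ → ModelAt S Ycone p := by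
    intro p hp2 hpr
    refine hXY S p ρ t (min t (h - t)) hρ hpr hp2 (lt_min ht (by linarith)) fun x hx => ?_
    have hd := (coord_dist x p 2).trans_lt hx
    rw [hp2, abs_lt] at hd
    have hd1 := hd.1
    have hd2 := hd.2
    have hm1 := min_le_left t (h - t)
    have hm2 := min_le_right t (h - t)
    rw [hmem x]
    constructor
    · rintro (h1 | h1)
      · exact Or.inl h1.2.2
      · exact Or.inr h1
    · rintro (h1 | h1)
      · exact Or.inl ⟨by linarith, by linarith, h1⟩
      · exact Or.inr h1
  refine ⟨⟨?_, ?_, ?_, ?_⟩, ?_, ?_⟩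
  · -- compactness
    have hSeq : S = ({x : E3 | 0 ≤ x 2 ∧ x 2 ≤ h ∧ rad x = cat ρ (1 / Real.sqrt 3) |x 2 - t|} ∪
        {x : E3 | x 2 = t ∧ rad x ≤ ρ}) := by
      ext x
      exact hmem x
    have h2c := coord_cont 2
    have hcl : IsClosed S := by
      rw [hSeq]
      refine IsClosed.union ?_ ?_
      · refine (isClosed_le continuous_const h2c).inter
          ((isClosed_le h2c continuous_const).inter (isClosed_eq rad_cont ?_))
        exact hccont.comp ((h2c.sub continuous_const).abs)
      · exact (isClosed_eq h2c continuous_const).inter (isClosed_le rad_cont continuous_const)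
    obtain ⟨C, hC⟩ := (isCompact_Icc : IsCompact (Icc (0 : ℝ) h)).exists_bound_of_continuousOn
      hccont.continuousOn
    refine Metric.isCompact_of_isClosed_isBounded hcl ?_
    refine (Metric.isBounded_closedBall (x := (0 : E3)) (r := max C ρ + h)).subset fun x hx => ?_
    rw [mem_closedBall_zero_iff]
    refine (norm_le_rad x).trans ?_
    rcases (hmem x).1 hx with ⟨a1, a2, a3⟩ | ⟨a1, a2⟩
    · have hb : |x 2 - t| ≤ h := abs_le.2 ⟨by linarith, by linarith⟩
      have h3 := hC |x 2 - t| ⟨abs_nonneg _, hb⟩
      rw [Real.norm_eq_abs, abs_of_pos (f3 _), ← a3] at h3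
      have h4 : |x 2| ≤ h := abs_le.2 ⟨by linarith, a2⟩
      have h5 := le_max_left C ρ
      linarith
    · have h4 : |x 2| ≤ h := abs_le.2 ⟨by linarith, by linarith⟩
      have h5 := le_max_right C ρ
      linarith
  · -- the circles belong to S
    rintro x (hx | hx)
    · refine (hmem x).2 (Or.inl ⟨hx.2.ge, by rw [hx.2]; exact hh.le, ?_⟩)
      rw [rad_circ hr0 hx, hx.2, zero_sub, abs_neg, abs_of_pos ht, hc0]
    · refine (hmem x).2 (Or.inl ⟨by rw [hx.2]; exact hh.le, hx.2.le, ?_⟩)
      rw [rad_circ hr1 hx, hx.2, abs_of_pos (by linarith : 0 < h - t), hc1]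
  · -- interior points
    intro p hp hpΓ
    rcases (hmem p).1 hp with ⟨a1, a2, a3⟩ | ⟨a1, a2⟩
    · have hradpos : 0 < rad p := by rw [a3]; exact f3 _
      have hb1 : 0 < p 2 := by
        rcases eq_or_lt_of_le a1 with h0 | h0
        · exfalso
          apply hpΓ
          left
          refine mem_circ hr0 ?_ h0.symm
          rw [a3, ← h0, zero_sub, abs_neg, abs_of_pos ht, hc0]
        · exact h0
      have hb2 : p 2 < h := by
        rcases eq_or_lt_of_le a2 with h0 | h0
        · exfalso
          apply hpΓ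
          right
          refine mem_circ hr1 ?_ h0
          rw [a3, h0, abs_of_pos (by linarith : 0 < h - t), hc1]
        · exact h0
      rcases lt_trichotomy (p 2) t with hlt | heq | hgt
      · left
        refine hXR1 S p ρ (-(1 / Real.sqrt 3)) t (min (p 2) (t - p 2)) hρ (pos_of_rad hradpos)
          (lt_min hb1 (by linarith)) fun x hx => ?_
        have hd := (coord_dist x p 2).trans_lt hx
        rw [abs_lt] at hd
        have hd1 := hd.1
        have hd2 := hd.2
        have hm1 := min_le_left (p 2) (t - p 2)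
        have hm2 := min_le_right (p 2) (t - p 2)
        have hxt : x 2 < t := by linarith
        have habs : |x 2 - t| = t - x 2 := by rw [abs_sub_comm]; exact abs_of_pos (by linarith)
        rw [hmem x, habs, hsym]
        constructor
        · rintro (h1 | h1)
          · exact h1.2.2
          · exact absurd h1.1 hxt.ne
        · intro h1
          exact Or.inl ⟨by linarith, by linarith, h1⟩
      · right
        left
        refine hYpt p heq ?_
        rw [a3, heq, sub_self, abs_zero, f1]
      · left
        refine hXR1 S p ρ (1 / Real.sqrt 3) t (min (p 2 - t) (h - p 2)) hρ (pos_of_rad hradpos)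
          (lt_min (by linarith) (by linarith)) fun x hx => ?_
        have hd := (coord_dist x p 2).trans_lt hx
        rw [abs_lt] at hd
        have hd1 := hd.1
        have hd2 := hd.2
        have hm1 := min_le_left (p 2 - t) (h - p 2)
        have hm2 := min_le_right (p 2 - t) (h - p 2)
        have hxt : t < x 2 := by linarith
        have habs : |x 2 - t| = x 2 - t := abs_of_pos (by linarith)
        rw [hmem x, habs]
        constructor
        · rintro (h1 | h1)
          · exact h1.2.2
          · exact absurd h1.1 hxt.ne'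
        · intro h1
          exact Or.inl ⟨by linarith, by linarith, h1⟩
    · rcases eq_or_lt_of_le a2 with h0 | h0
      · right
        left
        exact hYpt p a1 h0
      · left
        have hev : ∀ᶠ x in 𝓝 p, rad x < ρ := rad_cont.continuousAt.eventually (gt_mem_nhds h0)
        obtain ⟨ε, hε, hball⟩ := Metric.eventually_nhds_iff.1 hev
        refine hXR2 S p t ε hε fun x hx => ?_
        have hxr := hball hx
        rw [hmem x]
        constructor
        · rintro (h1 | h1)
          · exfalso
            have h2 := hcge |x 2 - t| (abs_nonneg _)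
            rw [← h1.2.2] at h2
            linarith
          · exact h1.1
        · intro h1
          exact Or.inr ⟨h1, hxr.le⟩
  · -- boundary points
    rintro p (hp | hp)
    · have hpr := rad_circ hr0 hp
      have hp2 : p 2 = 0 := hp.2
      refine hXB1 S p ρ (-(1 / Real.sqrt 3)) t t 1 hρ (pos_of_rad (by rw [hpr]; exact hr0)) ht
        (Or.inl rfl) ?_ fun x hx => ?_
      · rw [hpr, ← hsym, hp2, sub_zero, hc0]
      · have hd := (coord_dist x p 2).trans_lt hx
        rw [abs_lt, hp2] at hd
        have hd1 := hd.1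
        have hd2 := hd.2
        have hxt : x 2 < t := by linarith
        have habs : |x 2 - t| = t - x 2 := by rw [abs_sub_comm]; exact abs_of_pos (by linarith)
        rw [hmem x, habs, hsym, hp2, one_mul, sub_zero]
        constructor
        · rintro (h1 | h1)
          · exact ⟨h1.1, h1.2.2⟩
          · exact absurd h1.1 hxt.ne
        · rintro ⟨h1, h2⟩
          exact Or.inl ⟨h1, by linarith, h2⟩
    · have hpr := rad_circ hr1 hp
      have hp2 : p 2 = h := hp.2
      refine hXB1 S p ρ (1 / Real.sqrt 3) t (h - t) (-1) hρ (pos_of_rad (by rw [hpr]; exact hr1))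
        (by linarith) (Or.inr rfl) ?_ fun x hx => ?_
      · rw [hpr, hp2, hc1]
      · have hd := (coord_dist x p 2).trans_lt hx
        rw [abs_lt, hp2] at hd
        have hd1 := hd.1
        have hd2 := hd.2
        have hxt : t < x 2 := by linarith
        have habs : |x 2 - t| = x 2 - t := abs_of_pos (by linarith)
        rw [hmem x, habs, hp2]
        constructor
        · rintro (h1 | h1)
          · exact ⟨by linarith [h1.2.1], h1.2.2⟩
          · exact absurd h1.1 hxt.ne'
        · rintro ⟨h1, h2⟩
          exact Or.inl ⟨by linarith, by linarith, h2⟩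
  · -- rotations
    intro θ x hx
    rw [hmem] at hx ⊢
    rw [rad_rot, rot_two]
    exact hx
  · -- the singular point
    have h2 : (pt ρ 0 t) 2 = t := by simp [pt]
    have hr : rad (pt ρ 0 t) = ρ := by
      simp [rad, pt, Real.sqrt_sq hρ.le]
    refine ⟨pt ρ 0 t, ?_, ?_, Or.inl (hYpt _ h2 hr)⟩
    · rw [hmem]
      exact Or.inr ⟨h2, hr.le⟩
    · rintro (hx | hx)
      · have h3 := hx.2
        rw [h2] at h3
        exact ht.ne' h3
      · have h3 := hx.2
        rw [h2] at h3
        exact hth.ne h3

end Pool.Agent.Helper38.CY
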